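import Mathlib
import Pool.Agent.R863.TG.Stm
import Pool.Agent.R863.TG.Stm2
import Pool.Agent.R863.TG.VC
import Pool.Agent.R863.TG.FIN
import Pool.Agent.R863.TG.DIR
import Pool.Agent.R863.TG.NBA
import Pool.Agent.R863.TG.NBE
import Pool.Agent.R863.TG.NB
import Pool.Agent.R863.TG.REG
import Pool.Agent.R863.TG.TAIL
import Pool.Agent.R863.TG.LVL
import Pool.Agent.R863.TG.EN32
import Pool.Agent.R863.TG.F_EN23
import Pool.Agent.R863.TG.GR1
import Pool.Agent.R863.TG.GR2
import Pool.Agent.R863.TG.F_GR4b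
import Pool.Agent.R863.TG.GR
import Pool.Agent.R863.TG.NO
import Pool.Agent.R863.TG.F_SND
import Pool.Agent.R863.TG.WALK
import Pool.Agent.R863.TG.TRF
import Pool.Agent.R863.TG.OCC
import Pool.Agent.R863.TG.CLS
import Pool.Agent.R863.TG.D0
import Pool.Agent.R863.TG.D1
import Pool.Agent.R863.TG.D2
import Pool.Agent.R863.TG.D3
import Pool.Agent.R863.TG.D4
import Pool.Agent.R863.TG.D5
import Pool.Agent.R863.TG.D6
import Pool.Agent.R863.TG.D7
import Pool.Agent.R863.TG.D8
import Pool.Agent.R863.TG.D9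
import Pool.Agent.R863.TG.D10
import Pool.Agent.R863.TG.D11
import Pool.Agent.R863.TG.D12
import Pool.Agent.R863.TG.D13

/-!
# Skeletons of smooth tropical complete intersections of degrees 2 and 3

A connected trivalent graph of genus 4 is the skeleton of a smooth tropical curve
`T(p) ∩ T(q)` in `ℝ³` with `p` of degree 2 and `q` of degree 3 if and only if it is not sprawling.
-/

set_option autoImplicit false

open Pool.Agent.R863.TG

namespace Pool.Agent.Results.MP_3ce8eb_ag.Skeletons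

/-- **The skeletons of smooth tropical complete intersections of degrees 2 and 3** are the
non-sprawling connected trivalent graphs of genus 4. -/
theorem result (A : Matrix (Fin 6) (Fin 6) ℕ) (hA : Cubic4 A) : Occurs A ↔ ¬ Sprawling A := by
  have hVC : S_VC := t_VC
  have hDIR : S_DIR := t_DIR
  have hNB : S_NB := t_NB hVC hDIR (t_NBA hVC hDIR) (t_NBE hVC hDIR)
  have hFIN : S_FIN := t_FIN hVC hNB
  have hREG : S_REG := t_REG hVC hNB hFIN
  have hTAIL : S_TAIL := t_TAIL hVC hDIR hNB hFIN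
  have hLVL : S_LVL := t_LVL hVC hDIR hNB hFIN hTAIL
  have hEN : S_EN := t_EN t_EN32 t_EN23
  have hGR : S_GR := t_GR t_GR1 t_GR2 t_GR4
  have hNO : S_NO := t_NO hVC hDIR hNB hFIN hREG hTAIL hLVL hEN hGR
  have hOCC : S_OCC := t_OCC t_SND t_WALK t_TRF
  refine ⟨fun h => hNO A hA h, fun h => ?_⟩
  obtain ⟨k, σ, hk⟩ := t_CLS A hA h
  refine t_PERM A (canon k) σ hk ?_
  fin_cases k
  · exact hOCC _ _ _ chk0 achk0 gchk0
  · exact hOCC _ _ _ chk1 achk1 gchk1
  · exact hOCC _ _ _ chk2 achk2 gchk2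
  · exact hOCC _ _ _ chk3 achk3 gchk3
  · exact hOCC _ _ _ chk4 achk4 gchk4
  · exact hOCC _ _ _ chk5 achk5 gchk5
  · exact hOCC _ _ _ chk6 achk6 gchk6
  · exact hOCC _ _ _ chk7 achk7 gchk7
  · exact hOCC _ _ _ chk8 achk8 gchk8
  · exact hOCC _ _ _ chk9 achk9 gchk9
  · exact hOCC _ _ _ chk10 achk10 gchk10
  · exact hOCC _ _ _ chk11 achk11 gchk11
  · exact hOCC _ _ _ chk12 achk12 gchk12
  · exact hOCC _ _ _ chk13 achk13 gchk13

end Pool.Agent.Results.MP_3ce8eb_ag.Skeletons
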